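import Pool.Agent.MVS.Stmts
import Pool.Agent.Helper9_RF.Sym
import Pool.Agent.Helper36_RF.Chr

/-!
MP_33f2b9_gt, squad MVS, row FLC: symmetry of the Jacobi system.
-/

set_option autoImplicit false

noncomputable section

open scoped ContDiff Topology RealInnerProductSpace
open Set

namespace Pool.Agent.MVS.H65

open Pool.Agent.RF Pool.Agent.MVS

theorem flc (fla : FlaStatement) (flb : FlbStatement) (rot : RotStatement) : FlcStatement := by
  intro G κ a b F hS hF σ y hσ hσ0 hy hy1 w w' t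
  have hsym := Pool.Agent.RF.H9.sym chrStatement (Fin 5) G (Om (Fin 5)) hS.cyl.metric
  obtain ⟨r1, r2⟩ := rot
  have hNσ : pN κ σ = σ := by
    have h := r1 κ σ
    rw [hσ, add_zero] at h
    exact h
  have hmem : ∀ s : ℝ, gam F σ y s ∈ Om (Fin 5) := by
    intro s
    have h1 : pN κ (σ + s • y) = σ := by rw [map_add, map_smul, hNσ, hy, smul_zero, add_zero]
    have h2 := hF.norm (σ + s • y) (by rw [h1]; exact hσ0)
    show F (σ + s • y) ≠ 0
    intro h3
    rw [h3, norm_zero, h1] at h2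
    exact hσ0 (norm_eq_zero.1 h2.symm)
  have hsy : ∀ s u v, G (gam F σ y s) u v = G (gam F σ y s) v u := fun s u v =>
    hS.cyl.metric.symm _ (hmem s) u v
  obtain ⟨f, hf⟩ : ∃ f : ℝ → ℝ, f = fun s => G (gam F σ y s) (DVf G κ F σ y w s) (Vf κ F σ y w' s) -
      G (gam F σ y s) (DVf G κ F σ y w' s) (Vf κ F σ y w s) := ⟨_, rfl⟩
  have hd : ∀ s, HasDerivAt f 0 s := by
    intro s
    have h1 := ((fla G κ a b F hS hF σ y hσ hσ0 hy hy1 w w' s).2).sub
      ((fla G κ a b F hS hF σ y hσ hσ0 hy hy1 w' w s).2)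
    have h2 := (hsym (gam F σ y s) (hmem s)).2.2.2.1 (Tv F σ y s) (Vf κ F σ y w s) (Tv F σ y s)
      (Vf κ F σ y w' s)
    have h3 := hsy s (DVf G κ F σ y w s) (DVf G κ F σ y w' s)
    rw [h2, h3] at h1
    rw [hf]
    refine h1.congr_deriv ?_
    ring
  have hc : f t = f 0 := is_const_of_deriv_eq_zero (fun s => (hd s).differentiableAt)
    (fun s => (hd s).deriv) t 0
  have hg0 : gam F σ y 0 = σ := by
    show F (σ + (0 : ℝ) • y) = σ
    rw [zero_smul, add_zero]
    exact hF.base σ hσ hσ0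
  have h0 : f 0 = 0 := by
    have b1 := flb G κ a b F hS hF σ y hσ hσ0 hy hy1 w w' 0
    have b2 := flb G κ a b F hS hF σ y hσ hσ0 hy hy1 w' w 0
    rw [hf]
    show G (gam F σ y 0) (DVf G κ F σ y w 0) (Vf κ F σ y w' 0) -
      G (gam F σ y 0) (DVf G κ F σ y w' 0) (Vf κ F σ y w 0) = 0
    rw [hg0, b1.2.1, b2.2.1, b1.2.2.1, b2.2.2.1, sub_zero]
  rw [h0, hf] at hc
  have h4 : G (gam F σ y t) (DVf G κ F σ y w t) (Vf κ F σ y w' t) -
      G (gam F σ y t) (DVf G κ F σ y w' t) (Vf κ F σ y w t) = 0 := hc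
  rw [hsy t (Vf κ F σ y w t) (DVf G κ F σ y w' t)]
  linarith

end Pool.Agent.MVS.H65
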